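import Mathlib
import Pool.Agent.W684.PT.Stm

set_option autoImplicit false

/-! Task PT-COMB1: each three-element set is coded or a class. -/

namespace Pool.Agent.W52.PT

open Equiv Pool.Agent.W684.PT

open Classical in
theorem two {A : Type} {s : A → A → Prop} (he : Equivalence s) (h3 : Three s) (a b c : A)
    (hab : a ≠ b) (h1 : s a b) (h2 : ¬ s a c) : ∃ p, TypeTwo s {a, b, c} p := by
  obtain ⟨y, z, hb, hu⟩ := h3 a
  obtain ⟨hy, hz, hyz, ny, nz, nyz⟩ := hb
  rcases hu b h1 with h | h | h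
  · exact absurd h.symm hab
  · subst h
    exact ⟨_, a, b, z, c, ⟨h1, hz, hyz, ny, nz, nyz⟩, fun h => h2 (he.trans hz h), rfl, rfl⟩
  · subst h
    exact ⟨_, a, b, y, c, ⟨h1, hy, he.symm hyz, nz, ny, nyz.symm⟩,
      fun h => h2 (he.trans hy h), rfl, rfl⟩

theorem comb1 : S_COMB1 := by
  classical
  intro A s he h3 X hX
  obtain ⟨a, b, c, hab, hac, hbc, hXe⟩ := Finset.card_eq_three.1 hX
  have hXe' : X = {a, b, c} := by
    ext u
    rw [hXe]
  by_cases h1 : s a b
  · by_cases h2 : s a c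
    · exact Or.inr ⟨a, b, c, ⟨h1, h2, he.trans (he.symm h1) h2, hab, hac, hbc⟩, hXe'⟩
    · obtain ⟨p, hp⟩ := two he h3 a b c hab h1 h2
      rw [hXe']
      exact Or.inl ⟨p, Or.inr hp⟩
  · by_cases h2 : s a c
    · obtain ⟨p, hp⟩ := two he h3 a c b hac h2 h1
      have e : X = {a, c, b} := by
        rw [hXe']
        ext u
        simp only [Finset.mem_insert, Finset.mem_singleton]
        tauto
      rw [e]
      exact Or.inl ⟨p, Or.inr hp⟩
    · by_cases h4 : s b c
      · obtain ⟨p, hp⟩ := two he h3 b c a hbc h4 (fun h => h1 (he.symm h))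
        have e : X = {b, c, a} := by
          rw [hXe']
          ext u
          simp only [Finset.mem_insert, Finset.mem_singleton]
          tauto
        rw [e]
        exact Or.inl ⟨p, Or.inr hp⟩
      · obtain ⟨a', a'', ha, _⟩ := h3 a
        obtain ⟨b', b'', hb, _⟩ := h3 b
        obtain ⟨c', c'', hc, _⟩ := h3 c
        exact Or.inl ⟨_, Or.inl ⟨a, a', a'', b, b', b'', c, c', c'', ha, hb, hc, h1, h2, h4,
          hXe', rfl⟩⟩

end Pool.Agent.W52.PT
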