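import Mathlib
import Pool.Agent.W684.PT.Stm

set_option autoImplicit false

/-! Task PT-SOL: existence of the set of atoms. -/

namespace Pool.Agent.W52.PT

open Equiv Pool.Agent.W684.PT

/-- finitary permutations of `ℕ` -/
abbrev FP : Type := {p : Perm ℕ // Fty p}

/-- the classes -/
def s0 (u v : ℕ) : Prop := u / 3 = v / 3

theorem fp_countable : Countable FP := by
  classical
  let f : FP → Finset (ℕ × ℕ) := fun p => p.2.toFinset.image (fun x => (x, p.1 x))
  have hf : ∀ (p : FP) (x y : ℕ), (x, y) ∈ f p ↔ p.1 x ≠ x ∧ p.1 x = y := by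
    intro p x y
    change (x, y) ∈ p.2.toFinset.image (fun x => (x, p.1 x)) ↔ _
    rw [Finset.mem_image]
    constructor
    · rintro ⟨u, hu, he⟩
      rw [Prod.mk.injEq] at he
      obtain ⟨rfl, rfl⟩ := he
      exact ⟨p.2.mem_toFinset.1 hu, rfl⟩
    · rintro ⟨h1, h2⟩
      exact ⟨x, p.2.mem_toFinset.2 h1, by rw [h2]⟩
  have hinj : Function.Injective f := by
    intro p q h
    apply Subtype.ext
    apply Equiv.ext
    intro x
    by_cases hx : p.1 x = x
    · by_cases hy : q.1 x = x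
      · rw [hx, hy]
      · have h1 : (x, q.1 x) ∈ f q := (hf q x _).2 ⟨hy, rfl⟩
        rw [← h] at h1
        exact ((hf p x _).1 h1).2
    · have h1 : (x, p.1 x) ∈ f p := (hf p x _).2 ⟨hx, rfl⟩
      rw [h] at h1
      exact ((hf q x _).1 h1).2.symm
  exact hinj.countable

/-- the atoms -/
inductive InA (c : FP → ℕ) : ℕ → Prop
  | mk (p : FP) (i : ℕ) (hi : i < 3) (h : ∀ x, p.1 x ≠ x → InA c x)
      (hc : ∀ X, ¬ Code s0 X p.1) : InA c (3 * c p + i)

theorem InA.ex {c : FP → ℕ} {n : ℕ} (h : InA c n) :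
    ∃ p : FP, n / 3 = c p ∧ (∀ x, p.1 x ≠ x → InA c x) ∧ ∀ X, ¬ Code s0 X p.1 := by
  obtain ⟨p, i, hi, h, hc⟩ := h
  exact ⟨p, by omega, h, hc⟩

theorem InA.of {c : FP → ℕ} {n : ℕ} (p : FP) (hn : n / 3 = c p)
    (h : ∀ x, p.1 x ≠ x → InA c x) (hc : ∀ X, ¬ Code s0 X p.1) : InA c n := by
  have h1 := InA.mk p (n % 3) (Nat.mod_lt _ (by norm_num)) h hc
  have h2 : 3 * c p + n % 3 = n := by omega
  rwa [h2] at h1

theorem InA.same {c : FP → ℕ} {n m : ℕ} (h : InA c n) (hnm : n / 3 = m / 3) : InA c m := by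
  obtain ⟨p, h1, h2, h3⟩ := h.ex
  exact InA.of p (by rw [← hnm, h1]) h2 h3

section

variable (c : FP → ℕ)

/-- the set of atoms -/
abbrev At : Type := {n : ℕ // InA c n}

variable {c}

/-- the permutation coded by an atom -/
noncomputable def PP (x : At c) : FP := Classical.choose x.2.ex

theorem PP_spec (x : At c) : x.1 / 3 = c (PP x) ∧ (∀ n, (PP x).1 n ≠ n → InA c n) ∧
    ∀ X, ¬ Code s0 X (PP x).1 := Classical.choose_spec x.2.ex

theorem PP_iff (x : At c) (n : ℕ) : InA c ((PP x).1 n) ↔ InA c n := by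
  by_cases h : (PP x).1 n = n
  · rw [h]
  · have h1 := (PP_spec x).2.1 n h
    have h2 := (PP_spec x).2.1 ((PP x).1 n) (fun h' => h ((PP x).1.injective h'))
    exact ⟨fun _ => h1, fun _ => h2⟩

/-- the coded permutation of the atoms -/
noncomputable def cdd (x : At c) : Perm (At c) := (PP x).1.subtypePerm (PP_iff x)

theorem cdd_apply (x y : At c) : (cdd x y).1 = (PP x).1 y.1 := rfl

open Classical in
/-- extension to `ℕ` -/
noncomputable def OO : Perm (At c) →* Perm ℕ := Perm.ofSubtype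

theorem OO_inj : Function.Injective (OO (c := c)) := by
  classical
  unfold OO
  exact Perm.ofSubtype_injective

theorem OO_cdd (x : At c) : OO (cdd x) = (PP x).1 := by
  classical
  unfold OO cdd
  exact Perm.ofSubtype_subtypePerm _ (PP_spec x).2.1

theorem OO_apply (p : Perm (At c)) (x : At c) : OO p x.1 = (p x).1 := by
  classical
  unfold OO
  exact Perm.ofSubtype_apply_coe p x

theorem OO_not (p : Perm (At c)) (n : ℕ) (h : ¬ InA c n) : OO p n = n := by
  classical
  unfold OO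
  exact Perm.ofSubtype_apply_of_not_mem p h

theorem sw_ne {A : Type} {i : DecidableEq A} {a b x : A} (h1 : x ≠ a) (h2 : x ≠ b) :
    @swap A i a b x = x := swap_apply_of_ne_of_ne h1 h2

theorem sw_left {A : Type} {i : DecidableEq A} (a b : A) : @swap A i a b a = b :=
  swap_apply_left a b

theorem sw_right {A : Type} {i : DecidableEq A} (a b : A) : @swap A i a b b = a :=
  swap_apply_right a b

theorem OO_swap' (i1 : DecidableEq (At c)) (i2 : DecidableEq ℕ) (x y : At c) :
    OO (@swap _ i1 x y) = @swap _ i2 x.1 y.1 := by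
  apply Equiv.ext
  intro n
  by_cases hn : InA c n
  · have h1 := OO_apply (@swap _ i1 x y) ⟨n, hn⟩
    change OO (@swap _ i1 x y) n = _ at h1
    rw [h1]
    by_cases hx : n = x.1
    · have : (⟨n, hn⟩ : At c) = x := Subtype.ext hx
      rw [this, hx, sw_left, sw_left]
    · by_cases hy : n = y.1
      · have : (⟨n, hn⟩ : At c) = y := Subtype.ext hy
        rw [this, hy, sw_right, sw_right]
      · rw [sw_ne hx hy, sw_ne
          (fun h => hx (congrArg Subtype.val h)) (fun h => hy (congrArg Subtype.val h))]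
  · rw [OO_not _ n hn, sw_ne]
    · rintro rfl
      exact hn x.2
    · rintro rfl
      exact hn y.2

theorem OO_swap (x y : At c) :
    OO (@swap _ (fun a b => Classical.propDecidable (a = b)) x y) =
      @swap _ (fun a b => Classical.propDecidable (a = b)) x.1 y.1 := OO_swap' _ _ x y

theorem cdd_eq_iff (hc : Function.Injective c) (x y : At c) :
    cdd x = cdd y ↔ x.1 / 3 = y.1 / 3 := by
  constructor
  · intro h
    have h1 := congrArg OO h
    rw [OO_cdd, OO_cdd] at h1
    rw [(PP_spec x).1, (PP_spec y).1, Subtype.ext h1]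
  · intro h
    rw [(PP_spec x).1, (PP_spec y).1] at h
    have h1 := hc h
    apply OO_inj
    rw [OO_cdd, OO_cdd, h1]

/-- the classes of the atoms -/
def sA (u v : At c) : Prop := s0 u.1 v.1

theorem rel_eq (hc : Function.Injective c) :
    (fun u v : At c => cdd u = cdd v) = sA := by
  funext u v
  exact propext (cdd_eq_iff hc u v)

theorem Blk_iff (x y z : At c) : Blk sA x y z ↔ Blk s0 x.1 y.1 z.1 := by
  unfold Blk sA
  simp only [ne_eq, Subtype.ext_iff]

theorem code_up (X : Finset (At c)) (p : Perm (At c)) (h : Code sA X p) :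
    ∃ Y, Code s0 Y (OO p) := by
  classical
  rcases h with h | h
  · obtain ⟨x, x', x'', y, y', y'', z, z', z'', h1, h2, h3, h4, h5, h6, _, hp⟩ := h
    refine ⟨{x.1, y.1, z.1}, Or.inl ⟨x.1, x'.1, x''.1, y.1, y'.1, y''.1, z.1, z'.1, z''.1,
      (Blk_iff _ _ _).1 h1, (Blk_iff _ _ _).1 h2, (Blk_iff _ _ _).1 h3, h4, h5, h6, ?_, ?_⟩⟩
    · ext u
      simp
    · rw [hp, map_mul, map_mul, OO_swap, OO_swap, OO_swap]
  · obtain ⟨x, y, w, z, h1, h2, _, hp⟩ := h
    refine ⟨{x.1, y.1, z.1}, Or.inr ⟨x.1, y.1, w.1, z.1, (Blk_iff _ _ _).1 h1, h2, ?_, ?_⟩⟩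
    · ext u
      simp
    · rw [hp, map_mul, OO_swap, OO_swap]

theorem moved (p : Perm (At c)) (n : ℕ) (h : OO p n ≠ n) : InA c n := by
  by_contra hn
  exact h (OO_not p n hn)

theorem code_down (X : Finset ℕ) (p : Perm (At c)) (h : Code s0 X (OO p)) :
    ∃ Y, Code sA Y p := by
  classical
  rcases h with h | h
  · obtain ⟨x, x', x'', y, y', y'', z, z', z'', h1, h2, h3, h4, h5, h6, _, hp⟩ := h
    have k1 := h1
    have k2 := h2
    have k3 := h3
    unfold Blk s0 at k1 k2 k3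
    unfold s0 at h4 h5 h6
    obtain ⟨a1, a2, a3, a4, a5, a6⟩ := k1
    obtain ⟨b1, b2, b3, b4, b5, b6⟩ := k2
    obtain ⟨c1, c2, c3, c4, c5, c6⟩ := k3
    have hx' : InA c x' := by
      apply moved p
      have n1 : x' ≠ z' := fun h => h5 (by rw [a1, h, c1])
      have n2 : x' ≠ z'' := fun h => h5 (by rw [a1, h, c2])
      have n3 : x' ≠ y' := fun h => h4 (by rw [a1, h, b1])
      have n4 : x' ≠ y'' := fun h => h4 (by rw [a1, h, b2])
      rw [hp, Perm.mul_apply, Perm.mul_apply, sw_ne n1 n2, sw_ne n3 n4, sw_left]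
      exact a6.symm
    have hy' : InA c y' := by
      apply moved p
      have n1 : y' ≠ z' := fun h => h6 (by rw [b1, h, c1])
      have n2 : y' ≠ z'' := fun h => h6 (by rw [b1, h, c2])
      have n3 : y'' ≠ x' := fun h => h4 (by rw [a1, ← h, b2])
      have n4 : y'' ≠ x'' := fun h => h4 (by rw [a2, ← h, b2])
      rw [hp, Perm.mul_apply, Perm.mul_apply, sw_ne n1 n2, sw_left, sw_ne n3 n4]
      exact b6.symm
    have hz' : InA c z' := by
      apply moved p
      have n1 : z'' ≠ y' := fun h => h6 (by rw [b1, ← h, c2])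
      have n2 : z'' ≠ y'' := fun h => h6 (by rw [b2, ← h, c2])
      have n3 : z'' ≠ x' := fun h => h5 (by rw [a1, ← h, c2])
      have n4 : z'' ≠ x'' := fun h => h5 (by rw [a2, ← h, c2])
      rw [hp, Perm.mul_apply, Perm.mul_apply, sw_left, sw_ne n1 n2, sw_ne n3 n4]
      exact c6.symm
    have hx : InA c x := hx'.same a1.symm
    have hx'' : InA c x'' := hx'.same a3
    have hy : InA c y := hy'.same b1.symm
    have hy'' : InA c y'' := hy'.same b3
    have hz : InA c z := hz'.same c1.symm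
    have hz'' : InA c z'' := hz'.same c3
    have hpe : p = @swap _ (fun a b => Classical.propDecidable (a = b)) (⟨x', hx'⟩ : At c)
        ⟨x'', hx''⟩ * @swap _ (fun a b => Classical.propDecidable (a = b)) (⟨y', hy'⟩ : At c)
        ⟨y'', hy''⟩ * @swap _ (fun a b => Classical.propDecidable (a = b)) (⟨z', hz'⟩ : At c)
        ⟨z'', hz''⟩ := by
      apply OO_inj
      rw [map_mul, map_mul, OO_swap, OO_swap, OO_swap]
      exact hp
    exact ⟨_, Or.inl ⟨⟨x, hx⟩, ⟨x', hx'⟩, ⟨x'', hx''⟩, ⟨y, hy⟩, ⟨y', hy'⟩,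
      ⟨y'', hy''⟩, ⟨z, hz⟩, ⟨z', hz'⟩, ⟨z'', hz''⟩, (Blk_iff _ _ _).2 h1, (Blk_iff _ _ _).2 h2,
      (Blk_iff _ _ _).2 h3, h4, h5, h6, rfl, hpe⟩⟩
  · obtain ⟨x, y, w, z, h1, h2, _, hp⟩ := h
    have k1 := h1
    unfold Blk s0 at k1
    unfold s0 at h2
    obtain ⟨a1, a2, a3, a4, a5, a6⟩ := k1
    have hx : InA c x := by
      apply moved p
      have n1 : x ≠ z := fun h => h2 (by rw [← a2, h])
      rw [hp, Perm.mul_apply, sw_ne a5 n1, sw_left]
      exact a4.symm
    have hz : InA c z := by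
      apply moved p
      rw [hp, Perm.mul_apply, sw_right, sw_ne a5.symm a6.symm]
      rintro rfl
      exact h2 rfl
    have hy : InA c y := hx.same a1
    have hw : InA c w := hx.same a2
    have hpe : p = @swap _ (fun a b => Classical.propDecidable (a = b)) (⟨x, hx⟩ : At c)
        ⟨y, hy⟩ * @swap _ (fun a b => Classical.propDecidable (a = b)) (⟨w, hw⟩ : At c)
        ⟨z, hz⟩ := by
      apply OO_inj
      rw [map_mul, OO_swap, OO_swap]
      exact hp
    exact ⟨_, Or.inr ⟨⟨x, hx⟩, ⟨y, hy⟩, ⟨w, hw⟩, ⟨z, hz⟩,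
      (Blk_iff _ _ _).2 h1, h2, rfl, hpe⟩⟩

theorem three_sA : Three (sA (c := c)) := by
  intro x
  have h1 : InA c (3 * (x.1 / 3) + (x.1 % 3 + 1) % 3) := x.2.same (by omega)
  have h2 : InA c (3 * (x.1 / 3) + (x.1 % 3 + 2) % 3) := x.2.same (by omega)
  refine ⟨⟨_, h1⟩, ⟨_, h2⟩, ⟨?_, ?_, ?_, ?_, ?_, ?_⟩, ?_⟩
  · change x.1 / 3 = (3 * (x.1 / 3) + (x.1 % 3 + 1) % 3) / 3
    omega
  · change x.1 / 3 = (3 * (x.1 / 3) + (x.1 % 3 + 2) % 3) / 3
    omega
  · change (3 * (x.1 / 3) + (x.1 % 3 + 1) % 3) / 3 = (3 * (x.1 / 3) + (x.1 % 3 + 2) % 3) / 3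
    omega
  · intro h
    have h' := congrArg Subtype.val h
    change x.1 = 3 * (x.1 / 3) + (x.1 % 3 + 1) % 3 at h'
    omega
  · intro h
    have h' := congrArg Subtype.val h
    change x.1 = 3 * (x.1 / 3) + (x.1 % 3 + 2) % 3 at h'
    omega
  · intro h
    have h' := congrArg Subtype.val h
    change 3 * (x.1 / 3) + (x.1 % 3 + 1) % 3 = 3 * (x.1 / 3) + (x.1 % 3 + 2) % 3 at h'
    omega
  · intro u hu
    change x.1 / 3 = u.1 / 3 at hu
    rw [Subtype.ext_iff, Subtype.ext_iff, Subtype.ext_iff]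
    change u.1 = x.1 ∨ u.1 = 3 * (x.1 / 3) + (x.1 % 3 + 1) % 3 ∨
      u.1 = 3 * (x.1 / 3) + (x.1 % 3 + 2) % 3
    omega

end

theorem sol : S_SOL := by
  have := fp_countable
  obtain ⟨c, hc⟩ := exists_injective_nat FP
  refine ⟨At c, ⟨{ cd := cdd, fty := ?_, nc := ?_, three := ?_, surj := ?_, ind := ?_ }⟩⟩
  · intro x
    unfold Fty
    refine Set.Finite.subset ((PP x).2.preimage Subtype.val_injective.injOn) ?_
    intro y hy
    change (PP x).1 y.1 ≠ y.1
    intro h
    exact hy (Subtype.ext h)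
  · intro x X h
    rw [rel_eq hc] at h
    obtain ⟨Y, hY⟩ := code_up X (cdd x) h
    rw [OO_cdd] at hY
    exact (PP_spec x).2.2 Y hY
  · rw [rel_eq hc]
    exact three_sA
  · intro p hp hcode
    rw [rel_eq hc] at hcode
    have hf : Fty (OO p) := by
      unfold Fty
      refine Set.Finite.subset (hp.image Subtype.val) ?_
      intro n hn
      have hn' := moved p n hn
      refine ⟨⟨n, hn'⟩, ?_, rfl⟩
      intro h
      apply hn
      have h1 := OO_apply p ⟨n, hn'⟩
      rw [h] at h1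
      exact h1
    have hA : InA c (3 * c ⟨OO p, hf⟩) := by
      refine InA.of ⟨OO p, hf⟩ (by omega) (fun x hx => moved p x hx) ?_
      intro X hX
      obtain ⟨Y, hY⟩ := code_down X p hX
      exact hcode Y hY
    refine ⟨⟨_, hA⟩, ?_⟩
    apply OO_inj
    rw [OO_cdd]
    have h1 := (PP_spec (⟨_, hA⟩ : At c)).1
    change (3 * c ⟨OO p, hf⟩) / 3 = _ at h1
    have h2 : c ⟨OO p, hf⟩ = c (PP (⟨_, hA⟩ : At c)) := by omega
    have h3 := hc h2
    rw [← h3]
  · intro Q hQ
    have key : ∀ n (hn : InA c n), Q ⟨n, hn⟩ := by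
      intro n hn
      induction hn with
      | mk p i hi h hcc ih =>
        apply hQ
        intro y hy
        have h1 := (PP_spec (⟨_, InA.mk p i hi h hcc⟩ : At c)).1
        change (3 * c p + i) / 3 = _ at h1
        have h2 : c p = c (PP (⟨_, InA.mk p i hi h hcc⟩ : At c)) := by omega
        have h3 := hc h2
        have h4 : p.1 y.1 ≠ y.1 := by
          intro h5
          apply hy
          apply Subtype.ext
          rw [cdd_apply, ← h3]
          exact h5
        exact ih y.1 h4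
    exact fun x => key x.1 x.2

end Pool.Agent.W52.PT
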